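import Pool.Agent.N44.FA.Stm

/-!
FA/EL: over a matrix algebra over the field with two elements `GL_3 = E_3`.
-/

set_option autoImplicit false

namespace Pool.Agent.N591.FA

open Pool.Agent.N44.NS Pool.Agent.N44.FA

section

variable {O : Type} [Fintype O] [DecidableEq O]

/-- the block isomorphism -/
abbrev cr : Matrix (Fin 3) (Fin 3) (Matrix O O (ZMod 2)) ≃+*
    Matrix (Fin 3 × O) (Fin 3 × O) (ZMod 2) := Matrix.compRingEquiv (Fin 3) O (ZMod 2)

theorem cr_single (i j : Fin 3) (a b : O) (c : ZMod 2) :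
    cr (Matrix.single i j (Matrix.single a b c)) = Matrix.single (i, a) (j, b) c := by
  ext ⟨p, q⟩ ⟨r, s⟩
  simp only [Matrix.compRingEquiv_apply, Matrix.comp_apply, Matrix.single_apply, Prod.mk.injEq]
  by_cases h1 : i = p
  · by_cases h2 : j = r
    · simp [h1, h2, Matrix.single_apply]
    · simp [h2]
  · simp [h1]

theorem el_mem (i j : Fin 3) (h : i ≠ j) (x : Matrix O O (ZMod 2)) :
    el i j h x ∈ E3 (Matrix O O (ZMod 2)) :=
  Subgroup.subset_closure ⟨i, j, h, x, rfl⟩

theorem cr_el (i j : Fin 3) (h : i ≠ j) (a b : O) (c : ZMod 2) :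
    cr ((el i j h (Matrix.single a b c) : (Matrix (Fin 3) (Fin 3) (Matrix O O (ZMod 2)))ˣ) :
      Matrix (Fin 3) (Fin 3) (Matrix O O (ZMod 2))) = 1 + Matrix.single (i, a) (j, b) c := by
  change cr (1 + Matrix.single i j (Matrix.single a b c)) = _
  rw [map_add, map_one, cr_single]

theorem cr_el_inv (i j : Fin 3) (h : i ≠ j) (a b : O) (c : ZMod 2) :
    cr (((el i j h (Matrix.single a b c))⁻¹ : (Matrix (Fin 3) (Fin 3) (Matrix O O (ZMod 2)))ˣ) :
      Matrix (Fin 3) (Fin 3) (Matrix O O (ZMod 2))) = 1 - Matrix.single (i, a) (j, b) c := by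
  change cr (1 - Matrix.single i j (Matrix.single a b c)) = _
  rw [map_sub, map_one, cr_single]

theorem comm_eq {R : Type} [Ring R] (A B : R) (hAA : A * A = 0) (hBB : B * B = 0)
    (hBA : B * A = 0) : (1 + A) * (1 + B) * (1 - A) * (1 - B) = 1 + A * B := by
  have h1 : (1 + A) * (1 + B) = 1 + A + B + A * B := by noncomm_ring
  have h2 : (1 - A) * (1 - B) = 1 - A - B + A * B := by noncomm_ring
  have h3 : A * B * A = 0 := by rw [mul_assoc, hBA, mul_zero]
  have h4 : A * B * B = 0 := by rw [mul_assoc, hBB, mul_zero]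
  rw [mul_assoc, h1, h2]
  have h5 : (1 + A + B + A * B) * (1 - A - B + A * B) = 1 + A * B - A * A - B * A - B * B
      + A * A * B + B * A * B - A * B * A - A * B * B + A * B * A * B := by noncomm_ring
  rw [h5, hAA, hBA, hBB, h3, h4]
  simp

theorem transv (p q : Fin 3 × O) (hpq : p ≠ q) (c : ZMod 2) :
    ∃ u ∈ E3 (Matrix O O (ZMod 2)),
      cr (u : Matrix (Fin 3) (Fin 3) (Matrix O O (ZMod 2))) = 1 + Matrix.single p q c := by
  obtain ⟨i, a⟩ := p
  obtain ⟨j, b⟩ := q
  by_cases hij : i = j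
  · subst hij
    obtain ⟨l, hl⟩ : ∃ l : Fin 3, i ≠ l := by
      have h3 : ∀ i : Fin 3, ∃ l : Fin 3, i ≠ l := by decide
      exact h3 i
    refine ⟨el i l hl (Matrix.single a a c) * el l i hl.symm (Matrix.single a b 1) *
      (el i l hl (Matrix.single a a c))⁻¹ * (el l i hl.symm (Matrix.single a b 1))⁻¹, ?_, ?_⟩
    · exact mul_mem (mul_mem (mul_mem (el_mem _ _ _ _) (el_mem _ _ _ _))
        (inv_mem (el_mem _ _ _ _))) (inv_mem (el_mem _ _ _ _))
    · rw [Units.val_mul, Units.val_mul, Units.val_mul, map_mul, map_mul, map_mul, cr_el, cr_el,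
        cr_el_inv, cr_el_inv, comm_eq]
      · rw [Matrix.single_mul_single_same, mul_one]
      · exact Matrix.single_mul_single_of_ne _ _ _ _ (fun h => hl (congrArg Prod.fst h).symm) _
      · exact Matrix.single_mul_single_of_ne _ _ _ _ (fun h => hl (congrArg Prod.fst h)) _
      · exact Matrix.single_mul_single_of_ne _ _ _ _ (fun h => hpq h.symm) _
  · exact ⟨el i j hij (Matrix.single a b c), el_mem _ _ _ _, cr_el _ _ _ _ _ _⟩

theorem main : E3 (Matrix O O (ZMod 2)) = ⊤ := by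
  rw [eq_top_iff]
  intro g _
  have hu : IsUnit (cr (g : Matrix (Fin 3) (Fin 3) (Matrix O O (ZMod 2)))) :=
    g.isUnit.map (cr (O := O))
  have hdet : Matrix.det (cr (g : Matrix (Fin 3) (Fin 3) (Matrix O O (ZMod 2)))) ≠ 0 :=
    ((Matrix.isUnit_iff_isUnit_det _).1 hu).ne_zero
  have key := Matrix.diagonal_transvection_induction_of_det_ne_zero
    (fun M => ∃ u ∈ E3 (Matrix O O (ZMod 2)),
      cr (u : Matrix (Fin 3) (Fin 3) (Matrix O O (ZMod 2))) = M) _ hdet ?_ ?_ ?_
  · obtain ⟨u, hu, he⟩ := key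
    have : u = g := Units.ext ((cr (O := O)).injective he)
    rwa [← this]
  · intro D hD
    refine ⟨1, one_mem _, ?_⟩
    rw [Units.val_one, map_one, eq_comm, Matrix.diagonal_eq_one]
    rw [Matrix.det_diagonal, Finset.prod_ne_zero_iff] at hD
    funext i
    have h2 : ∀ z : ZMod 2, z ≠ 0 → z = 1 := by decide
    exact h2 _ (hD i (Finset.mem_univ i))
  · intro t
    exact transv t.i t.j t.hij t.c
  · rintro A B - - ⟨u, hu, rfl⟩ ⟨v, hv, rfl⟩
    exact ⟨u * v, mul_mem hu hv, by rw [Units.val_mul, map_mul]⟩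

end

theorem t_el : S_EL := fun _ => main

end Pool.Agent.N591.FA
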